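import Pool.Agent.Run7.h781.CC.KZ4

/-!
# Explicit class names force `Ω(m log m)` updates even without input pairs

The congruence closure of the empty list of pairs, on (cyclic) graphs of outdegree at most two.
-/

namespace Pool.Agent.Results.MP_7a8e14_lc.EmptyRelationLower

open Run7.h781.CC Run7.h781.CC.KZ

theorem log_bound {K m : ℕ} (hK : 1 ≤ K) (hm : m ≤ 48 * 2 ^ K) :
    (1 / 240 : ℝ) * ((m : ℝ) * Real.log (m : ℝ)) ≤ ((K * 2 ^ K : ℕ) : ℝ) := by
  rcases Nat.eq_zero_or_pos m with rfl | hpos
  · simp
  have h1 : (m : ℝ) ≤ 48 * 2 ^ K := by exact_mod_cast hm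
  have h0 : (1 : ℝ) ≤ (m : ℝ) := by exact_mod_cast hpos
  have h2 : Real.log (m : ℝ) ≤ 5 * K := by
    calc Real.log (m : ℝ) ≤ Real.log (48 * 2 ^ K) := Real.log_le_log (by linarith) h1
      _ = Real.log 48 + K * Real.log 2 := by
          rw [Real.log_mul (by norm_num) (by positivity), Real.log_pow]
      _ ≤ 4 + K * 1 := by
          have h3 : Real.log 48 ≤ 4 := by
            rw [Real.log_le_iff_le_exp (by norm_num)]
            have h5 : (2.7182818283 : ℝ) < Real.exp 1 := Real.exp_one_gt_d9
            have h6 : Real.exp 4 = Real.exp 1 ^ 4 := by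
              rw [← Real.exp_nat_mul]; norm_num
            rw [h6]
            calc (48 : ℝ) ≤ 2.7182818283 ^ 4 := by norm_num
              _ ≤ Real.exp 1 ^ 4 := by gcongr
          have h4 : Real.log 2 ≤ 1 := by
            have := Real.log_two_lt_d9
            linarith
          have hK0 : (0 : ℝ) ≤ K := Nat.cast_nonneg K
          nlinarith
      _ ≤ 5 * K := by
          have : (1 : ℝ) ≤ K := by exact_mod_cast hK
          linarith
  have hlog0 : 0 ≤ Real.log (m : ℝ) := Real.log_nonneg h0
  calc (1 / 240 : ℝ) * ((m : ℝ) * Real.log (m : ℝ))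
      ≤ (1 / 240 : ℝ) * ((48 * 2 ^ K) * (5 * K)) := by
        apply mul_le_mul_of_nonneg_left _ (by norm_num)
        exact mul_le_mul h1 h2 hlog0 (by positivity)
    _ = ((K * 2 ^ K : ℕ) : ℝ) := by push_cast; ring

theorem out_le (L : ℕ) (t : T) : (out L t).length ≤ 2 := by
  cases t with
  | w l a => cases l <;> simp [out]
  | h l a => simp [out]
  | v j l => simp only [out]; split_ifs <;> simp
  | x j => simp only [out]; split_ifs <;> simp
  | r => simp [out]
  | d a => simp [out]

theorem out_ge (L : ℕ) (t : T) (h : Valid L t) (hne : t ≠ .w 0 0) : 1 ≤ (out L t).length := by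
  cases t with
  | w l a =>
    cases l with
    | zero =>
      have : a = 0 := by have := h.2; simpa using this
      exact absurd (by rw [this]) hne
    | succ l => simp [out]
  | h l a => simp [out]
  | v j l => simp only [out]; split_ifs <;> simp
  | x j => simp only [out]; split_ifs <;> simp
  | r => simp [out]
  | d a => simp [out]

theorem len_eq (K : ℕ) (v : VV K) : ((GK K).out v).length = (out (K + 1) v.1).length :=
  List.length_pmap

/-- There is a constant `c > 0` such that for every `N` there is a labelled graph `G` with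
`n ≥ N` vertices and `m ≥ n - 1` edges, in which every vertex has outdegree at most two, such that
complete histories (those which reach the congruence closure) without any input pair exist and
every complete history without input pairs makes at least `c m log m` updates. -/
theorem result : ∃ c : ℝ, 0 < c ∧ ∀ N : ℕ, ∃ (V : Type) (_ : Fintype V) (G : LGraph V),
    N ≤ Fintype.card V ∧ Fintype.card V ≤ ∑ v, (G.out v).length + 1 ∧
    (∀ v, (G.out v).length ≤ 2) ∧
    (∃ f t, Hist G [] f t ∧ Setoid.ker f = G.closure []) ∧
    ∀ f t, Hist G [] f t → Setoid.ker f = G.closure [] →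
      c * (((∑ v, (G.out v).length : ℕ) : ℝ) * Real.log ((∑ v, (G.out v).length : ℕ) : ℝ)) ≤ t := by
  classical
  refine ⟨1 / 240, by norm_num, fun N => ?_⟩
  have hfin : Finite (VV (N + 1)) := finite_VV _
  let _ : Fintype (VV (N + 1)) := Fintype.ofFinite _
  refine ⟨VV (N + 1), inferInstance, GK (N + 1), ?_, ?_, ?_, exists_hist _ _, ?_⟩
  · have h1 : Fintype.card (Fin (2 ^ (N + 1 + 1))) ≤ Fintype.card (VV (N + 1)) := by
      apply Fintype.card_le_of_injective (fun a => (⟨.d a.1, a.2⟩ : VV (N + 1)))
      intro a b hab
      have := congrArg Subtype.val hab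
      simp only [T.d.injEq] at this
      exact Fin.ext this
    rw [Fintype.card_fin] at h1
    have h2 : N + 1 + 1 < 2 ^ (N + 1 + 1) := Nat.lt_two_pow_self
    omega
  · let v0 : VV (N + 1) := ⟨.w 0 0, by omega, by simp⟩
    calc Fintype.card (VV (N + 1)) = ∑ v : VV (N + 1), 1 := by simp
      _ ≤ ∑ v : VV (N + 1), (((GK (N + 1)).out v).length + if v = v0 then 1 else 0) := by
          apply Finset.sum_le_sum
          intro v _
          split_ifs with hv
          · omega
          · have := out_ge _ v.1 v.2 (fun h => hv (Subtype.ext h))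
            rw [len_eq]; omega
      _ = ∑ v, ((GK (N + 1)).out v).length + 1 := by
          rw [Finset.sum_add_distrib]; simp
  · intro v
    rw [len_eq]
    exact out_le _ _
  · intro f t h hf
    refine (log_bound (K := N + 1) (by omega) ?_).trans ?_
    · have h1 : Fintype.card (VV (N + 1)) ≤ 24 * 2 ^ (N + 1) := by
        have := Fintype.card_le_of_injective _ (emb_inj (N + 1))
        rwa [Fintype.card_fin] at this
      calc ∑ v, ((GK (N + 1)).out v).length ≤ ∑ v : VV (N + 1), 2 := by
            apply Finset.sum_le_sum
            intro v _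
            rw [len_eq]
            exact out_le _ _
        _ = Fintype.card (VV (N + 1)) * 2 := by simp
        _ ≤ _ := by omega
    · exact_mod_cast cost_ge h hf

end Pool.Agent.Results.MP_7a8e14_lc.EmptyRelationLower
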