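import Pool.Agent.Run7.h781.CC.Main

/-!
# Explicit class names force `Ω(m log m)` updates in congruence closure

All the known algorithms for congruence closure unite congruence classes one after the other (or in
batches) and keep, for every vertex, the signature computed from explicit names of the classes. We
show that no order of the unions, no batching and no choice of the names makes this method linear,
not even on graphs in which all outdegrees are at most one and every label occurs at most twice.
-/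

namespace Pool.Agent.Results.MP_7a8e14_lc.ExplicitNamesLower

open Run7.h781.CC

theorem log_bound {K : ℕ} (hK : 1 ≤ K) :
    (1 / 40 : ℝ) * (((10 * 2 ^ K - 4 : ℕ) : ℝ) * Real.log ((10 * 2 ^ K - 4 : ℕ) : ℝ)) ≤
      ((K * 2 ^ K : ℕ) : ℝ) := by
  have hp : 1 ≤ 2 ^ K := Nat.one_le_two_pow
  have h1 : ((10 * 2 ^ K - 4 : ℕ) : ℝ) ≤ 10 * 2 ^ K := by
    have : (10 * 2 ^ K - 4 : ℕ) ≤ 10 * 2 ^ K := Nat.sub_le _ _
    calc ((10 * 2 ^ K - 4 : ℕ) : ℝ) ≤ ((10 * 2 ^ K : ℕ) : ℝ) := by exact_mod_cast this
      _ = 10 * 2 ^ K := by push_cast; ring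
  have h0 : (1 : ℝ) ≤ ((10 * 2 ^ K - 4 : ℕ) : ℝ) := by
    have : 1 ≤ 10 * 2 ^ K - 4 := by omega
    exact_mod_cast this
  have h2 : Real.log ((10 * 2 ^ K - 4 : ℕ) : ℝ) ≤ 4 * K := by
    calc Real.log ((10 * 2 ^ K - 4 : ℕ) : ℝ) ≤ Real.log (10 * 2 ^ K) :=
          Real.log_le_log (by linarith) h1
      _ = Real.log 10 + K * Real.log 2 := by
          rw [Real.log_mul (by norm_num) (by positivity), Real.log_pow]
      _ ≤ 3 + K * 1 := by
          have h3 : Real.log 10 ≤ 3 := by
            rw [Real.log_le_iff_le_exp (by norm_num)]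
            have h5 : (2.7182818283 : ℝ) < Real.exp 1 := Real.exp_one_gt_d9
            have h6 : Real.exp 3 = Real.exp 1 ^ 3 := by
              rw [← Real.exp_nat_mul]; norm_num
            rw [h6]
            calc (10 : ℝ) ≤ 2.7182818283 ^ 3 := by norm_num
              _ ≤ Real.exp 1 ^ 3 := by gcongr
          have h4 : Real.log 2 ≤ 1 := by
            have := Real.log_two_lt_d9
            linarith
          have hK0 : (0 : ℝ) ≤ K := Nat.cast_nonneg K
          nlinarith
      _ ≤ 4 * K := by
          have : (1 : ℝ) ≤ K := by exact_mod_cast hK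
          linarith
  have hlog0 : 0 ≤ Real.log ((10 * 2 ^ K - 4 : ℕ) : ℝ) := Real.log_nonneg h0
  calc (1 / 40 : ℝ) * (((10 * 2 ^ K - 4 : ℕ) : ℝ) * Real.log ((10 * 2 ^ K - 4 : ℕ) : ℝ))
      ≤ (1 / 40 : ℝ) * ((10 * 2 ^ K) * (4 * K)) := by
        apply mul_le_mul_of_nonneg_left _ (by norm_num)
        exact mul_le_mul h1 h2 hlog0 (by positivity)
    _ = ((K * 2 ^ K : ℕ) : ℝ) := by push_cast; ring

/-- There is a constant `c > 0` such that for every `N` there are a labelled graph `G` with
`n ≥ N` vertices and `m ≥ n / 2` edges, in which every vertex has outdegree at most one and every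
label occurs at most twice, and a list `R` of at most `m` input pairs, for which complete histories
(those which reach the congruence closure) exist and every complete history makes at least
`c m log m` updates. -/
theorem result : ∃ c : ℝ, 0 < c ∧ ∀ N : ℕ, ∃ (n : ℕ) (G : LGraph (Fin n))
    (R : List (Fin n × Fin n)),
    N ≤ n ∧ n ≤ 2 * ∑ v, (G.out v).length ∧ R.length ≤ ∑ v, (G.out v).length ∧
    (∀ v, (G.out v).length ≤ 1) ∧
    (∀ l, (Finset.univ.filter (fun v => G.lab v = l)).card ≤ 2) ∧
    (∃ f t, Hist G R f t ∧ Setoid.ker f = G.closure R) ∧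
    ∀ f t, Hist G R f t → Setoid.ker f = G.closure R →
      c * (((∑ v, (G.out v).length : ℕ) : ℝ) * Real.log ((∑ v, (G.out v).length : ℕ) : ℝ)) ≤ t := by
  refine ⟨1 / 40, by norm_num, fun N => ?_⟩
  have hp : 1 ≤ 2 ^ (N + 1) := Nat.one_le_two_pow
  have hN : N + 1 < 2 ^ (N + 1) := Nat.lt_two_pow_self
  have hM := MM_eq (N + 1)
  have hL := LL_eq (N + 1)
  have hNN := NN_eq (N + 1)
  refine ⟨NN (N + 1), GG (N + 1), RR (N + 1), by omega, ?_, ?_, ?_, label_twice, exists_hist _ _, ?_⟩
  · rw [edges]; omega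
  · rw [edges, RR_length]; omega
  · intro v
    rw [out_length]
    split_ifs <;> omega
  · intro f t h hf
    rw [edges]
    refine (log_bound (by omega)).trans ?_
    exact_mod_cast cost_ge h hf

end Pool.Agent.Results.MP_7a8e14_lc.ExplicitNamesLower
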